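import Pool.Agent.H58.FL.TargetsD

/-!
MP_6a7a6f_gt, row WHE: a wheel with `N` spokes.
-/

set_option autoImplicit false

open Pool.Agent.H58.FL Pool.Agent.H59 Pool.Agent.H48.FR

namespace Pool.Agent.H10.FL

noncomputable section

section

variable {E : Type} [NormedAddCommGroup E] [InnerProductSpace ℂ E]

private def bb (h x : E) : ℝ := ‖inner ℂ h x‖

private def ss (h x : E) : ℝ := Real.sqrt (1 - bb h x ^ 2)

private def yy (h x : E) : E := ((bb h x : ℂ) / inner ℂ h x) • x

private def uu (h x : E) : E := (((ss h x)⁻¹ : ℝ) : ℂ) • (yy h x - (bb h x : ℂ) • h)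

private theorem y1 (h x : E) (hb : 0 < bb h x) : inner ℂ h (yy h x) = (bb h x : ℂ) := by
  have h0 : inner ℂ h x ≠ 0 := norm_pos_iff.1 hb
  unfold yy
  rw [inner_smul_right, div_mul_cancel₀ _ h0]

private theorem y1' (h x : E) (hb : 0 < bb h x) : inner ℂ (yy h x) h = (bb h x : ℂ) := by
  rw [← inner_conj_symm, y1 h x hb, Complex.conj_ofReal]

private theorem y2 (h x : E) (hb : 0 < bb h x) (hx : ‖x‖ = 1) : ‖yy h x‖ = 1 := by
  unfold yy
  rw [norm_smul, hx, mul_one, norm_div, Complex.norm_real, Real.norm_of_nonneg hb.le]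
  exact div_self (ne_of_gt hb)

private theorem conj_mul_self' (z : ℂ) : (starRingEnd ℂ) z * z = ((‖z‖ : ℝ) : ℂ) ^ 2 := by
  rw [mul_comm, Complex.mul_conj, Complex.normSq_eq_norm_sq]
  push_cast
  rfl

private theorem y3 (h x x' : E) (hb : 0 < bb h x) (hb' : 0 < bb h x') :
    (bb h x : ℂ) * bb h x' * inner ℂ (yy h x) (yy h x') =
      inner ℂ h x * inner ℂ x x' * inner ℂ x' h := by
  have h0 : inner ℂ h x ≠ 0 := norm_pos_iff.1 hb
  have h0' : inner ℂ h x' ≠ 0 := norm_pos_iff.1 hb'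
  have h1 : (starRingEnd ℂ) (inner ℂ h x) ≠ 0 := by
    rwa [Ne, map_eq_zero]
  unfold yy
  rw [inner_smul_left, inner_smul_right, map_div₀, Complex.conj_ofReal,
    ← inner_conj_symm x' h]
  have e1 : (starRingEnd ℂ) (inner ℂ h x) * inner ℂ h x = ((bb h x : ℝ) : ℂ) ^ 2 :=
    conj_mul_self' _
  have e2 : (starRingEnd ℂ) (inner ℂ h x') * inner ℂ h x' = ((bb h x' : ℝ) : ℂ) ^ 2 :=
    conj_mul_self' _
  have e3 : (bb h x : ℂ) * ((bb h x : ℂ) / (starRingEnd ℂ) (inner ℂ h x)) = inner ℂ h x := by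
    rw [← mul_div_assoc, ← sq, ← e1, mul_comm, mul_div_assoc, div_self h1, mul_one]
  have e4 : (bb h x' : ℂ) * ((bb h x' : ℂ) / inner ℂ h x') =
      (starRingEnd ℂ) (inner ℂ h x') := by
    rw [← mul_div_assoc, ← sq, ← e2, mul_div_assoc, div_self h0', mul_one]
  linear_combination (((bb h x' : ℂ) * ((bb h x' : ℂ) / inner ℂ h x')) * inner ℂ x x') * e3 +
    (inner ℂ h x * inner ℂ x x') * e4

private theorem u1 (h x x' : E) (hh : ‖h‖ = 1) (hb : 0 < bb h x) (hb' : 0 < bb h x')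
    (hs : 0 < ss h x) (hs' : 0 < ss h x') :
    (ss h x : ℂ) * ss h x' * inner ℂ (uu h x) (uu h x') =
      inner ℂ (yy h x) (yy h x') - bb h x * bb h x' := by
  have h1 : (ss h x : ℂ) ≠ 0 := by exact_mod_cast ne_of_gt hs
  have h2 : (ss h x' : ℂ) ≠ 0 := by exact_mod_cast ne_of_gt hs'
  have h3 : inner ℂ h h = (1 : ℂ) := by
    rw [inner_self_eq_norm_sq_to_K, hh]
    simp
  unfold uu
  rw [inner_smul_left, inner_smul_right, inner_sub_left, inner_sub_right, inner_sub_right,
    inner_smul_right, inner_smul_left, inner_smul_left, inner_smul_right, h3, y1 h x' hb',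
    y1' h x hb, Complex.conj_ofReal, Complex.conj_ofReal]
  push_cast
  field_simp
  ring

private theorem u2 (h x : E) (hh : ‖h‖ = 1) (hx : ‖x‖ = 1) (hb : 0 < bb h x)
    (hs : 0 < ss h x) (hs2 : ss h x ^ 2 = 1 - bb h x ^ 2) : ‖uu h x‖ = 1 := by
  have h1 := u1 h x x hh hb hb hs hs
  rw [inner_self_eq_norm_sq_to_K, inner_self_eq_norm_sq_to_K, y2 h x hb hx] at h1
  have h2 : ss h x * ss h x * ‖uu h x‖ ^ 2 = 1 ^ 2 - bb h x * bb h x := by
    have h3 : ((ss h x * ss h x * ‖uu h x‖ ^ 2 : ℝ) : ℂ) =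
        ((1 ^ 2 - bb h x * bb h x : ℝ) : ℂ) := by
      simpa using h1
    exact_mod_cast h3
  have h3 : ss h x ^ 2 * (‖uu h x‖ ^ 2 - 1) = 0 := by
    rw [mul_sub, mul_one, hs2]
    rw [← sq, hs2] at h2
    linarith
  have h4 : ‖uu h x‖ ^ 2 = 1 := by
    rcases mul_eq_zero.1 h3 with h5 | h5
    · exact absurd h5 (by positivity)
    · linarith
  have h5 := norm_nonneg (uu h x)
  nlinarith

end

theorem pf_WHE (hSTI : T_STI) : T_WHE := by
  intro E _ _ κ N h x δ k hκ0 hκ1 hh hx hxN hsp had hδ hsum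
  have hb : ∀ j, 0 < bb h (x j) := by
    intro j
    have h1 := (hsp j).1
    rcases lt_or_eq_of_le (norm_nonneg (inner ℂ h (x j) : ℂ)) with h2 | h2
    · exact h2
    · rw [← h2] at h1
      norm_num at h1
      linarith
  have hb1 : ∀ j, κ ≤ bb h (x j) ^ 2 := fun j => (hsp j).1
  have hb2 : ∀ j, bb h (x j) ^ 2 ≤ 1 - κ := fun j => (hsp j).2
  have hs2 : ∀ j, ss h (x j) ^ 2 = 1 - bb h (x j) ^ 2 := by
    intro j
    unfold ss
    exact Real.sq_sqrt (by have := hb2 j; linarith)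
  have hs : ∀ j, 0 < ss h (x j) := by
    intro j
    unfold ss
    exact Real.sqrt_pos.2 (by have := hb2 j; linarith)
  set θ : ℕ → ℝ := fun j => ar h (x j) (x (j + 1)) with hθ
  set c : ℕ → ℝ := fun j => (Complex.exp (-((((θ j - δ : ℝ)) : ℂ) * Complex.I)) *
    inner ℂ (uu h (x j)) (uu h (x (j + 1)))).re with hc
  have hu : ∀ j, ‖uu h (x j)‖ = 1 := fun j => u2 h (x j) hh (hx j) (hb j) (hs j) (hs2 j)
  have hcn : ∀ j, |c j| ≤ 1 := by
    intro j
    refine (Complex.abs_re_le_norm _).trans ?_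
    rw [norm_mul, ← neg_mul, ← Complex.ofReal_neg, Complex.norm_exp_ofReal_mul_I, one_mul]
    refine (norm_inner_le_norm _ _).trans ?_
    rw [hu, hu, one_mul]
  have hcos : ∀ j, Real.cos (Real.arccos (c j)) = c j := fun j =>
    Real.cos_arccos (abs_le.1 (hcn j)).1 (abs_le.1 (hcn j)).2
  -- the inner products of the points
  have hG : ∀ j, inner ℂ (yy h (x j)) (yy h (x (j + 1))) =
      (‖(inner ℂ (x j) (x (j + 1)) : ℂ)‖ : ℂ) * Complex.exp ((θ j : ℂ) * Complex.I) := by
    intro j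
    have h1 := y3 h (x j) (x (j + 1)) (hb j) (hb (j + 1))
    have hbb : 0 < bb h (x j) * bb h (x (j + 1)) := mul_pos (hb j) (hb (j + 1))
    have h2 : (inner ℂ (yy h (x j)) (yy h (x (j + 1))) : ℂ).arg = θ j := by
      have h3 : ((bb h (x j) * bb h (x (j + 1)) : ℝ) : ℂ) *
          inner ℂ (yy h (x j)) (yy h (x (j + 1))) =
          inner ℂ h (x j) * inner ℂ (x j) (x (j + 1)) * inner ℂ (x (j + 1)) h := by
        rw [← h1]
        push_cast
        ring
      rw [← Complex.arg_real_mul _ hbb, h3]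
      rfl
    have h3 : ‖(inner ℂ (yy h (x j)) (yy h (x (j + 1))) : ℂ)‖ =
        ‖(inner ℂ (x j) (x (j + 1)) : ℂ)‖ := by
      have h4 := congrArg norm h1
      rw [norm_mul, norm_mul, norm_mul, norm_mul, Complex.norm_real, Complex.norm_real,
        Real.norm_of_nonneg (hb j).le, Real.norm_of_nonneg (hb (j + 1)).le,
        norm_inner_symm (x (j + 1)) h] at h4
      have h5 : bb h (x j) * bb h (x (j + 1)) *
          ‖(inner ℂ (yy h (x j)) (yy h (x (j + 1))) : ℂ)‖ =
          bb h (x j) * bb h (x (j + 1)) * ‖(inner ℂ (x j) (x (j + 1)) : ℂ)‖ := by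
        rw [h4]
        show bb h (x j) * ‖(inner ℂ (x j) (x (j + 1)) : ℂ)‖ * bb h (x (j + 1)) = _
        ring
      exact mul_left_cancel₀ (ne_of_gt hbb) h5
    rw [← h2, ← h3]
    exact (Complex.norm_mul_exp_arg_mul_I _).symm
  -- the equation of an edge
  have hE : ∀ j, ss h (x j) * ss h (x (j + 1)) * c j =
      ‖(inner ℂ (x j) (x (j + 1)) : ℂ)‖ * Real.cos δ -
        bb h (x j) * bb h (x (j + 1)) * Real.cos (θ j - δ) := by
    intro j
    have h1 := u1 h (x j) (x (j + 1)) hh (hb j) (hb (j + 1)) (hs j) (hs (j + 1))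
    rw [hG j] at h1
    have h2 : ((ss h (x j) * ss h (x (j + 1)) : ℝ) : ℂ) *
        (Complex.exp (-((((θ j - δ : ℝ)) : ℂ) * Complex.I)) *
          inner ℂ (uu h (x j)) (uu h (x (j + 1)))) =
        ((‖(inner ℂ (x j) (x (j + 1)) : ℂ)‖ : ℝ) : ℂ) * Complex.exp ((δ : ℂ) * Complex.I) -
          ((bb h (x j) * bb h (x (j + 1)) : ℝ) : ℂ) *
            Complex.exp (((-(θ j - δ) : ℝ) : ℂ) * Complex.I) := by
      have e1 : Complex.exp ((δ : ℂ) * Complex.I) =
          Complex.exp (-((((θ j - δ : ℝ)) : ℂ) * Complex.I)) *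
            Complex.exp ((θ j : ℂ) * Complex.I) := by
        rw [← Complex.exp_add]
        congr 1
        push_cast
        ring
      have e2 : Complex.exp (((-(θ j - δ) : ℝ) : ℂ) * Complex.I) =
          Complex.exp (-((((θ j - δ : ℝ)) : ℂ) * Complex.I)) := by
        congr 1
        push_cast
        ring
      rw [e1, e2]
      push_cast at h1 ⊢
      linear_combination (Complex.exp (-(((θ j : ℂ) - (δ : ℂ)) * Complex.I))) * h1
    have h3 := congrArg Complex.re h2
    rw [Complex.re_ofReal_mul, Complex.sub_re, Complex.re_ofReal_mul, Complex.re_ofReal_mul,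
      Complex.exp_ofReal_mul_I_re, Complex.exp_ofReal_mul_I_re, Real.cos_neg] at h3
    exact h3
  refine ⟨fun j => ss h (x j) / bb h (x j), fun j => Real.arccos (c j), ?_, ?_, ?_, ?_, ?_⟩
  · simp only [hxN]
  · intro j
    have b0 := hb j
    have b1 := hb1 j
    have b2 := hb2 j
    have hbp : 0 < bb h (x j) ^ 2 := by positivity
    refine ⟨div_pos (hs j) b0, ?_, ?_⟩
    · rw [div_pow, hs2 j, div_le_div_iff₀ (by linarith) hbp]
      nlinarith
    · rw [div_pow, hs2 j, div_le_div_iff₀ hbp hκ0]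
      nlinarith
  · exact fun j => ⟨Real.arccos_nonneg _, Real.arccos_le_pi _⟩
  · exact hSTI E N (fun j => uu h (x j)) (fun j => θ j - δ) k hu (by simp only [hxN]) hsum
  · intro j
    have b0 := hb j
    have b0' := hb (j + 1)
    have hbb : 0 < bb h (x j) * bb h (x (j + 1)) := mul_pos b0 b0'
    have h1 := hE j
    show Real.sqrt κ * Real.cos δ * (1 + ss h (x j) / bb h (x j) *
      (ss h (x (j + 1)) / bb h (x (j + 1)))) < Real.cos (θ j - δ) +
        ss h (x j) / bb h (x j) * (ss h (x (j + 1)) / bb h (x (j + 1))) *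
          Real.cos (Real.arccos (c j))
    rw [hcos j]
    have h2 : Real.cos (θ j - δ) + ss h (x j) / bb h (x j) *
        (ss h (x (j + 1)) / bb h (x (j + 1))) * c j =
        ‖(inner ℂ (x j) (x (j + 1)) : ℂ)‖ * Real.cos δ /
          (bb h (x j) * bb h (x (j + 1))) := by
      rw [eq_div_iff (ne_of_gt hbb)]
      have h3 : ss h (x j) / bb h (x j) * (ss h (x (j + 1)) / bb h (x (j + 1))) * c j *
          (bb h (x j) * bb h (x (j + 1))) = ss h (x j) * ss h (x (j + 1)) * c j := by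
        field_simp
      linear_combination h3 + h1
    rw [h2, lt_div_iff₀ hbb]
    have h4 : Real.sqrt κ < ‖(inner ℂ (x j) (x (j + 1)) : ℂ)‖ := by
      rw [Real.sqrt_lt' (by
        rcases lt_or_eq_of_le (norm_nonneg (inner ℂ (x j) (x (j + 1)) : ℂ)) with h5 | h5
        · exact h5
        · have h6 := had j
          rw [← h5] at h6
          norm_num at h6
          linarith)]
      exact had j
    have h5 : (1 + ss h (x j) / bb h (x j) * (ss h (x (j + 1)) / bb h (x (j + 1)))) *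
        (bb h (x j) * bb h (x (j + 1))) ≤ 1 := by
      have h6 : (1 + ss h (x j) / bb h (x j) * (ss h (x (j + 1)) / bb h (x (j + 1)))) *
          (bb h (x j) * bb h (x (j + 1))) =
          bb h (x j) * bb h (x (j + 1)) + ss h (x j) * ss h (x (j + 1)) := by
        field_simp
      rw [h6]
      nlinarith [hs2 j, hs2 (j + 1), sq_nonneg (bb h (x j) - bb h (x (j + 1))),
        sq_nonneg (ss h (x j) - ss h (x (j + 1)))]
    have h7 : 0 ≤ Real.sqrt κ * Real.cos δ := mul_nonneg (Real.sqrt_nonneg _) hδ.le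
    calc Real.sqrt κ * Real.cos δ * (1 + ss h (x j) / bb h (x j) *
          (ss h (x (j + 1)) / bb h (x (j + 1)))) * (bb h (x j) * bb h (x (j + 1)))
        = Real.sqrt κ * Real.cos δ * ((1 + ss h (x j) / bb h (x j) *
          (ss h (x (j + 1)) / bb h (x (j + 1)))) * (bb h (x j) * bb h (x (j + 1)))) := by ring
      _ ≤ Real.sqrt κ * Real.cos δ * 1 := mul_le_mul_of_nonneg_left h5 h7
      _ < ‖(inner ℂ (x j) (x (j + 1)) : ℂ)‖ * Real.cos δ := by
        rw [mul_one]
        exact mul_lt_mul_of_pos_right h4 hδ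

end

end Pool.Agent.H10.FL
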